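import Mathlib

namespace Pool.Agent.Q195.KM

open Set Filter Topology

variable {X : Type*} [MetricSpace X]

/-- Every two points are joined by a geodesic. -/
def Geod (X : Type*) [MetricSpace X] : Prop :=
  ∀ x y : X, ∃ γ : ℝ → X, γ 0 = x ∧ γ (dist x y) = y ∧
    ∀ s ∈ Icc (0:ℝ) (dist x y), ∀ t ∈ Icc (0:ℝ) (dist x y), dist (γ s) (γ t) = |s - t|

/-- A continuous path from `p` to `p'` inside `P` of length at most `L`. -/
def Conn (P : X → Prop) (L : ℝ) (p p' : X) : Prop :=
  ∃ (γ : ℝ → X) (a c : ℝ), a ≤ c ∧ ContinuousOn γ (Icc a c) ∧ γ a = p ∧ γ c = p' ∧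
    (∀ x ∈ Icc a c, P (γ x)) ∧ eVariationOn γ (Icc a c) ≤ ENNReal.ofReal L

theorem Conn.mono {P P' : X → Prop} {L L' : ℝ} {p p' : X} (h : Conn P L p p') (hL : L ≤ L')
    (hP : ∀ x, P x → P' x) : Conn P' L' p p' := by
  obtain ⟨γ, a, c, hac, hc, ha, hc', hin, hv⟩ := h
  exact ⟨γ, a, c, hac, hc, ha, hc', fun x hx => hP _ (hin x hx),
    hv.trans (ENNReal.ofReal_le_ofReal hL)⟩

theorem Conn.refl {P : X → Prop} {L : ℝ} {p : X} (h : P p) : Conn P L p p := by
  refine ⟨fun _ => p, 0, 0, le_rfl, continuousOn_const, rfl, rfl, fun _ _ => h, ?_⟩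
  rw [eVariationOn.subsingleton _ (by simp)]
  exact zero_le

theorem Conn.symm {P : X → Prop} {L : ℝ} {p p' : X} (h : Conn P L p p') : Conn P L p' p := by
  obtain ⟨γ, a, c, hac, hc, ha, hc', hin, hv⟩ := h
  have hm : MapsTo (fun x : ℝ => -x) (Icc (-c) (-a)) (Icc a c) := by
    intro x hx
    exact ⟨by linarith [hx.2], by linarith [hx.1]⟩
  refine ⟨γ ∘ (fun x : ℝ => -x), -c, -a, by linarith, ?_, by simp [hc'], by simp [ha], ?_, ?_⟩
  · exact hc.comp continuous_neg.continuousOn hm
  · intro x hx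
    exact hin _ (hm hx)
  · refine (eVariationOn.comp_le_of_antitoneOn γ (fun x : ℝ => -x) ?_ hm).trans hv
    intro x _ y _ hxy
    simpa using hxy

theorem Conn.trans {P : X → Prop} {L M : ℝ} {p q r : X} (h1 : Conn P L p q) (h2 : Conn P M q r)
    (hL : 0 ≤ L) (hM : 0 ≤ M) : Conn P (L + M) p r := by
  obtain ⟨f, a, c, hac, hcont, ha, hc', hin, hv⟩ := h1
  obtain ⟨g, a', c', hac2, hcont2, ha2, hc2, hin2, hv2⟩ := h2
  set φ : ℝ → ℝ := fun x => x - c + a' with hφ
  set F : ℝ → X := fun x => if x ≤ c then f x else g (φ x) with hF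
  have e1 : EqOn F f (Icc a c) := by
    intro x hx
    simp [hF, hx.2]
  have e2 : EqOn F (g ∘ φ) (Icc c (c + (c' - a'))) := by
    intro x hx
    by_cases h : x ≤ c
    · have hx' : x = c := le_antisymm h hx.1
      subst hx'
      simp [hF, hφ, hc', ha2]
    · simp [hF, h]
  have hm : MapsTo φ (Icc c (c + (c' - a'))) (Icc a' c') := by
    intro x hx
    exact ⟨by simp only [hφ]; linarith [hx.1], by simp only [hφ]; linarith [hx.2]⟩
  have hu : Icc a c ∪ Icc c (c + (c' - a')) = Icc a (c + (c' - a')) :=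
    Icc_union_Icc_eq_Icc hac (by linarith)
  refine ⟨F, a, c + (c' - a'), by linarith, ?_, ?_, ?_, ?_, ?_⟩
  · rw [← hu]
    apply ContinuousOn.union_of_isClosed _ _ isClosed_Icc isClosed_Icc
    · exact hcont.congr e1
    · refine ContinuousOn.congr ?_ e2
      refine hcont2.comp ?_ hm
      exact (by fun_prop : Continuous φ).continuousOn
  · rw [e1 ⟨le_rfl, hac⟩, ha]
  · rw [e2 ⟨by linarith, le_rfl⟩]
    simp [hφ, hc2]
  · intro x hx
    rw [← hu] at hx
    rcases hx with hx | hx
    · rw [e1 hx]; exact hin x hx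
    · rw [e2 hx]; exact hin2 _ (hm hx)
  · have h3 := eVariationOn.Icc_add_Icc F (s := univ) (a := a) (b := c) (c := c + (c' - a'))
      hac (by linarith) (mem_univ _)
    simp only [univ_inter] at h3
    rw [← h3, eVariationOn.congr e1, eVariationOn.congr e2, ENNReal.ofReal_add hL hM]
    refine add_le_add hv ?_
    refine (eVariationOn.comp_le_of_monotoneOn g φ ?_ hm).trans hv2
    intro x _ y _ hxy
    simp only [hφ]
    linarith

/-- a path which is one-Lipschitz. -/
theorem Conn.lip {P : X → Prop} {γ : ℝ → X} {a c : ℝ} (hac : a ≤ c)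
    (hγ : ∀ x ∈ Icc a c, ∀ y ∈ Icc a c, dist (γ x) (γ y) ≤ |x - y|)
    (hin : ∀ x ∈ Icc a c, P (γ x)) : Conn P (c - a) (γ a) (γ c) := by
  have hl : LipschitzOnWith 1 γ (Icc a c) := by
    apply LipschitzOnWith.of_dist_le_mul
    intro x hx y hy
    rw [Real.dist_eq]
    simpa using hγ x hx y hy
  refine ⟨γ, a, c, hac, hl.continuousOn, rfl, rfl, hin, ?_⟩
  have h1 := hl.comp_eVariationOn_le (f := γ) (g := fun x : ℝ => x) (s := Icc a c)
    (fun x hx => hx)
  have h2 : eVariationOn (fun x : ℝ => x) (Icc a c) ≤ ENNReal.ofReal (c - a) := by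
    have := MonotoneOn.eVariationOn_eq (f := fun x : ℝ => x) (s := Icc a c) (a := a) (b := c)
      (fun x _ y _ h => h) ⟨le_rfl, hac⟩ ⟨hac, le_rfl⟩
    simpa using this.le
  calc eVariationOn γ (Icc a c) = eVariationOn (γ ∘ fun x : ℝ => x) (Icc a c) := rfl
    _ ≤ _ := h1
    _ ≤ _ := by simpa using h2

theorem Conn.chain {P : X → Prop} {L : ℝ} (hL : 0 ≤ L) {x : ℕ → X} {n : ℕ} (hP : P (x 0))
    (h : ∀ i < n, Conn P L (x i) (x (i + 1))) : Conn P (n * L) (x 0) (x n) := by
  induction n with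
  | zero => exact Conn.refl hP
  | succ n ih =>
    have h1 := (ih (fun i hi => h i (by omega))).trans (h n (by omega)) (by positivity) hL
    refine h1.mono ?_ (fun _ h => h)
    push_cast
    linarith

/-- Chain over a range of indices. -/
theorem Conn.chain_range {P : X → Prop} {L : ℝ} (hL : 0 ≤ L) {x : ℕ → X} {a e : ℕ} (hae : a ≤ e)
    (hP : P (x a))
    (h : ∀ i, a ≤ i → i < e → Conn P L (x i) (x (i + 1))) :
    Conn P ((e - a : ℝ) * L) (x a) (x e) := by
  have h1 := Conn.chain (P := P) hL (x := fun i => x (a + i)) (n := e - a) (by simpa using hP)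
    (fun i hi => by
      have := h (a + i) (by omega) (by omega)
      simpa [add_assoc] using this)
  have h2 : a + (e - a) = e := by omega
  simp only [add_zero, h2] at h1
  rw [Nat.cast_sub hae] at h1
  exact h1

/-- A geodesic segment all of whose points are in `P`. -/
theorem Conn.seg (hX : Geod X) {P : X → Prop} {p q : X}
    (hin : ∀ z : X, dist p z + dist z q = dist p q → P z) : Conn P (dist p q) p q := by
  obtain ⟨γ, h0, h1, h2⟩ := hX p q
  have h3 := Conn.lip (P := P) (γ := γ) (a := 0) (c := dist p q) dist_nonneg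
    (fun x hx y hy => (h2 x hx y hy).le) (fun x hx => by
      apply hin
      rw [← h0]
      conv_lhs => rw [← h1]
      rw [h2 0 ⟨le_rfl, dist_nonneg⟩ x hx, h2 x hx _ ⟨dist_nonneg, le_rfl⟩]
      rw [h0, abs_of_nonpos (by linarith [hx.1]), abs_of_nonpos (by linarith [hx.2])]
      ring)
  rw [h0, h1, sub_zero] at h3
  exact h3

/-- A geodesic segment of length at most `L`, all of whose points are close to `p`. -/
theorem Conn.seg_near (hX : Geod X) {P : X → Prop} {p q : X} {L : ℝ} (hL : dist p q ≤ L)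
    (hin : ∀ z : X, dist p z ≤ L → P z) : Conn P L p q := by
  refine (Conn.seg hX (P := P) (fun z hz => hin z ?_)).mono hL (fun _ h => h)
  linarith [dist_nonneg (x := z) (y := q)]

end Pool.Agent.Q195.KM
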