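import Pool.Agent.Q195.KM.DirB

namespace Pool.Agent.Q195.KM

open Set Filter Topology

variable {X : Type*} [MetricSpace X]

theorem seg_mem_gen {P : X → Prop} {b : ℝ → X}
    (hb : ∀ s, 0 ≤ s → ∀ t, 0 ≤ t → dist (b s) (b t) = |s - t|) {s t : ℝ} (hs : 0 ≤ s)
    (hst : s ≤ t) (hP : ∀ x, s ≤ x → x ≤ t → P (b x)) : Conn P (t - s) (b s) (b t) :=
  Conn.lip hst (fun x hx y hy => (hb x (hs.trans hx.1) y (hs.trans hy.1)).le)
    (fun x hx => hP x hx.1 hx.2)

/-- The geodesic from a near projection avoids the ball. -/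
theorem near_proj_avoid (hX : Geod X) {b : ℝ → X} {Z : Set X} {u t0 R : ℝ} {p : X}
    (hbZ : b t0 ∈ Z) (hR : 1 ≤ R) (hu : dist p (b u) ≤ Metric.infDist p Z + 1)
    (hd : 8 * R ≤ dist (b u) (b t0)) :
    Conn (fun y => R ≤ dist y (b t0)) (dist p (b u)) p (b u) := by
  refine Conn.seg hX (fun z hz => ?_)
  have h1 := Metric.infDist_le_dist_of_mem (x := p) hbZ
  have h2 := dist_triangle p z (b t0)
  have h3 := dist_triangle (b u) z (b t0)
  rw [dist_comm (b u) z] at h3
  linarith

theorem halfL (hX : Geod X) {b : ℝ → X}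
    (hb : ∀ s, 0 ≤ s → ∀ t, 0 ≤ t → dist (b s) (b t) = |s - t|)
    {u t0 R : ℝ} {p : X} (hu0 : 0 ≤ u) (hR : 1 ≤ R) (hut : u ≤ t0 - 8 * R)
    (hu : dist p (b u) ≤ Metric.infDist p (b '' Ici 0) + 1) :
    Conn (fun y => R ≤ dist y (b t0)) ((t0 - R - u) + dist p (b u)) (b (t0 - R)) p := by
  have h1 : Conn (fun y => R ≤ dist y (b t0)) (t0 - R - u) (b u) (b (t0 - R)) := by
    refine seg_mem_gen hb hu0 (by linarith) (fun x hx1 hx2 => ?_)
    rw [hb _ (by linarith) _ (by linarith), abs_of_nonpos (by linarith)]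
    linarith
  have h2 := near_proj_avoid hX (b := b) (Z := b '' Ici 0) (t0 := t0) ⟨t0, by simp; linarith, rfl⟩
    hR hu (by rw [hb _ hu0 _ (by linarith), abs_of_nonpos (by linarith)]; linarith)
  exact h1.symm.trans h2.symm (by linarith) dist_nonneg

theorem halfR (hX : Geod X) {b : ℝ → X}
    (hb : ∀ s, 0 ≤ s → ∀ t, 0 ≤ t → dist (b s) (b t) = |s - t|)
    {u t0 R : ℝ} {p : X} (ht0 : 0 ≤ t0) (hR : 1 ≤ R) (hut : t0 + 8 * R ≤ u)
    (hu : dist p (b u) ≤ Metric.infDist p (b '' Ici 0) + 1) :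
    Conn (fun y => R ≤ dist y (b t0)) (dist p (b u) + (u - (t0 + R))) p (b (t0 + R)) := by
  have h1 : Conn (fun y => R ≤ dist y (b t0)) (u - (t0 + R)) (b (t0 + R)) (b u) := by
    refine seg_mem_gen hb (by linarith) (by linarith) (fun x hx1 hx2 => ?_)
    rw [hb _ (by linarith) _ (by linarith), abs_of_nonneg (by linarith)]
    linarith
  have h2 := near_proj_avoid hX (b := b) (Z := b '' Ici 0) (t0 := t0) ⟨t0, by simp; linarith, rfl⟩
    hR hu (by rw [hb _ (by linarith) _ (by linarith), abs_of_nonneg (by linarith)]; linarith)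
  exact h2.trans h1.symm dist_nonneg (by linarith)

/-- A path between two points with far apart near projections gives a detour around the ball. -/
theorem detour (hX : Geod X) {b : ℝ → X}
    (hb : ∀ s, 0 ≤ s → ∀ t, 0 ≤ t → dist (b s) (b t) = |s - t|)
    {u v R L : ℝ} {p p' : X} (hu0 : 0 ≤ u) (hv0 : 0 ≤ v) (hR : 1 ≤ R) (hL : 0 ≤ L)
    (huv : 16 * R ≤ |u - v|)
    (hu : dist p (b u) ≤ Metric.infDist p (b '' Ici 0) + 1)
    (hv : dist p' (b v) ≤ Metric.infDist p' (b '' Ici 0) + 1)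
    (hc : Conn (fun y => R ≤ dist y (b ((u + v) / 2))) L p p') :
    Conn (fun y => R ≤ dist y (b ((u + v) / 2))) (|u - v| + dist p (b u) + dist p' (b v) + L)
      (b ((u + v) / 2 - R)) (b ((u + v) / 2 + R)) := by
  rcases le_total u v with h | h
  · rw [abs_of_nonpos (by linarith)] at huv ⊢
    have h1 := halfL hX hb (t0 := (u + v) / 2) hu0 hR (by linarith) hu
    have h2 := halfR hX hb (t0 := (u + v) / 2) (by linarith) hR (by linarith) hv
    have hd1 := dist_nonneg (x := p) (y := b u)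
    have hd2 := dist_nonneg (x := p') (y := b v)
    refine ((h1.trans hc (by linarith) hL).trans h2 (by linarith) (by linarith)).mono ?_
      (fun _ h => h)
    linarith
  · rw [abs_of_nonneg (by linarith)] at huv ⊢
    have h1 := halfL hX hb (t0 := (u + v) / 2) hv0 hR (by linarith) hv
    have h2 := halfR hX hb (t0 := (u + v) / 2) (by linarith) hR (by linarith) hu
    have hd1 := dist_nonneg (x := p) (y := b u)
    have hd2 := dist_nonneg (x := p') (y := b v)
    refine ((h1.trans hc.symm (by linarith) hL).trans h2 (by linarith) (by linarith)).mono ?_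
      (fun _ h => h)
    linarith

theorem arith_far {q Q H l : ℝ} (hq : 2 ≤ q) (hQ : 1 ≤ Q)
    (hlen : 8 * q ^ 2 * H - Q ≤ q * l) : 8 * H - Q - 1 - Q ≤ (l - 1) / q - Q := by
  have hq0 : 0 < q := by linarith
  have h2 : 8 * H - Q - 1 ≤ (l - 1) / q := by
    rw [le_div_iff₀ hq0]
    have h4 : Q + q ≤ (Q + 1) * q ^ 2 := by
      have h5 : q ≤ q ^ 2 := by nlinarith
      have h6 : Q * 1 ≤ Q * q ^ 2 := mul_le_mul_of_nonneg_left (by linarith) (by linarith)
      linarith
    have h3 : q * ((8 * H - Q - 1) * q) ≤ q * (l - 1) := by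
      have e1 : q * ((8 * H - Q - 1) * q) = 8 * q ^ 2 * H - (Q + 1) * q ^ 2 := by ring
      have e2 : q * (l - 1) = q * l - q := by ring
      rw [e1, e2]
      linarith
    exact le_of_mul_le_mul_left h3 hq0
  linarith

theorem arith_basic {q Q : ℝ} (hq : 2 ≤ q) (hQ : 1 ≤ Q) :
    4 * (q + Q) ≤ q ^ 2 * (q + Q) ∧ (2 + Q) * q ^ 2 ≤ q ^ 2 * (q + Q) := by
  have h4 : 4 ≤ q ^ 2 := by nlinarith
  constructor
  · exact mul_le_mul_of_nonneg_right h4 (by linarith)
  · rw [mul_comm]
    exact mul_le_mul_of_nonneg_left (by linarith) (by linarith)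

theorem arith_near {q Q H D' l : ℝ} (hq : 2 ≤ q) (hQ : 1 ≤ Q)
    (hH : 100 * q ^ 2 * (q + Q) ≤ H) (hD' : 6 * q ^ 2 * D' = H) (hD'H : 24 * D' ≤ H)
    (hlen : 2 * (H - D' - Q) ≤ q * l) : 6 * D' + 2 ≤ (l - 1) / q - Q := by
  have hq0 : 0 < q := by linarith
  obtain ⟨h1, h2⟩ := arith_basic hq hQ
  have h3 : 100 * (q ^ 2 * (q + Q)) ≤ H := by linarith
  have h6 : 6 * D' + 2 + Q ≤ (l - 1) / q := by
    rw [le_div_iff₀ hq0]
    have h7 : q * ((6 * D' + 2 + Q) * q) ≤ q * (l - 1) := by
      have h8 : q * ((6 * D' + 2 + Q) * q) = 6 * q ^ 2 * D' + (2 + Q) * q ^ 2 := by ring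
      have e2 : q * (l - 1) = q * l - q := by ring
      rw [h8, hD', e2]
      linarith
    exact le_of_mul_le_mul_left h7 hq0
  linarith

theorem arith_total {q Q H l uv du dv : ℝ} (hq : 2 ≤ q) (hQ : 1 ≤ Q)
    (hH : 100 * q ^ 2 * (q + Q) ≤ H)
    (huv : uv ≤ 2 * (8 * q ^ 2 * H + (q + Q)) + 6 * H + 2)
    (hdu : du ≤ 3 * H + 1) (hdv : dv ≤ 3 * H + 1)
    (hl : l ≤ q * (2 * (8 * q ^ 2 * H + (q + Q)) + Q) + 1) :
    uv + du + dv + l * (q + Q) ≤ (32 * q ^ 2 + 13 + (32 * q ^ 3 + 1) * (q + Q)) * H := by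
  obtain ⟨h1, h2⟩ := arith_basic hq hQ
  have h3 : 100 * (q ^ 2 * (q + Q)) ≤ H := by linarith
  have hH0 : 0 ≤ H := by nlinarith
  have hq2H : 0 ≤ q ^ 2 * H := by positivity
  have h4 : uv + du + dv ≤ (32 * q ^ 2 + 13) * H := by
    have e1 : (32 * q ^ 2 + 13) * H = 32 * (q ^ 2 * H) + 13 * H := by ring
    rw [e1]
    linarith
  have h5 : l ≤ (32 * q ^ 3 + 1) * H := by
    have h6 : q * (q + Q) ≤ q ^ 2 * (q + Q) := by nlinarith
    have h7 : q * Q ≤ q * (q + Q) := by nlinarith
    have hq3H : 0 ≤ q ^ 3 * H := by positivity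
    have e1 : q * (2 * (8 * q ^ 2 * H + (q + Q)) + Q) + 1 =
      16 * (q ^ 3 * H) + 2 * (q * (q + Q)) + q * Q + 1 := by ring
    have e2 : (32 * q ^ 3 + 1) * H = 32 * (q ^ 3 * H) + H := by ring
    rw [e2]
    rw [e1] at hl
    nlinarith
  have h6 := mul_le_mul_of_nonneg_right h5 (show 0 ≤ q + Q by linarith)
  have e3 : (32 * q ^ 2 + 13 + (32 * q ^ 3 + 1) * (q + Q)) * H =
    (32 * q ^ 2 + 13) * H + (32 * q ^ 3 + 1) * H * (q + Q) := by ring
  rw [e3]
  linarith

/-- The geometric core of the direction from superlinear divergence to Morse: the excursion of a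
discrete quasi-geodesic gives a short detour. -/
theorem excursion (hX : Geod X) {b : ℝ → X}
    (hb : ∀ s, 0 ≤ s → ∀ t, 0 ≤ t → dist (b s) (b t) = |s - t|)
    {q Q : ℝ} (hq : 2 ≤ q) (hQ : 1 ≤ Q) {N : ℕ} {x : ℕ → X}
    (hup : ∀ i j, i ≤ j → j ≤ N → dist (x i) (x j) ≤ q * ((j : ℝ) - i) + Q)
    (hlow : ∀ i j, i ≤ j → j ≤ N → ((j : ℝ) - i - 1) / q - Q ≤ dist (x i) (x j))
    (h0 : x 0 ∈ b '' Ici 0) (hN : x N ∈ b '' Ici 0) {i0 : ℕ} (hi0 : i0 ≤ N) :
    ∃ H, Metric.infDist (x i0) (b '' Ici 0) ≤ H ∧ (100 * q ^ 2 * (q + Q) ≤ H →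
      ∃ t0 R, 0 ≤ t0 ∧ R = H / (24 * q ^ 2) ∧ R < t0 ∧
        t0 ≤ dist (b 0) (x i0) + (24 * q ^ 2 + 4) * H ∧
        Conn (fun y => R ≤ dist y (b t0))
          ((24 * q ^ 2 * (32 * q ^ 2 + 13 + (32 * q ^ 3 + 1) * (q + Q))) * R)
          (b (t0 - R)) (b (t0 + R))) := by
  classical
  set Z := b '' Ici (0:ℝ) with hZ
  have hZne : Z.Nonempty := ⟨b 0, 0, by simp, rfl⟩
  set D : ℕ → ℝ := fun i => Metric.infDist (x i) Z with hD
  have hD0 : ∀ i, 0 ≤ D i := fun i => Metric.infDist_nonneg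
  have hDlip : ∀ i j, D i ≤ D j + dist (x i) (x j) := fun i j =>
    Metric.infDist_le_infDist_add_dist
  have hq2 : 0 < q ^ 2 := by positivity
  have hq4 : 4 ≤ q ^ 2 := by nlinarith
  obtain ⟨j, hj, hjmax⟩ := Finset.exists_max_image (Finset.range (N + 1))
    (fun i => 8 * q ^ 2 * D i - dist (x i) (x i0)) ⟨0, by simp⟩
  rw [Finset.mem_range] at hj
  have hjN : j ≤ N := by omega
  set H := D j with hH
  have hmaxi : 8 * q ^ 2 * D i0 + dist (x j) (x i0) ≤ 8 * q ^ 2 * H := by
    have := hjmax i0 (by simp; omega)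
    rw [dist_self] at this
    linarith
  have hmax : ∀ i ≤ N, 8 * q ^ 2 * D i ≤ 8 * q ^ 2 * H + dist (x i) (x j) := by
    intro i hi
    have h1 := hjmax i (by simp; omega)
    have h2 := dist_triangle (x i) (x j) (x i0)
    linarith
  have hDH : D i0 ≤ H := by
    have h1 := dist_nonneg (x := x j) (y := x i0)
    have h2 : 8 * q ^ 2 * D i0 ≤ 8 * q ^ 2 * H := by linarith
    exact le_of_mul_le_mul_left h2 (by positivity)
  refine ⟨H, hDH, fun hHbig => ?_⟩
  have hqQ : 3 ≤ q + Q := by linarith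
  have hH0 : 0 < H := by
    have : 0 < 100 * q ^ 2 * (q + Q) := by positivity
    linarith
  have hji0 : dist (x j) (x i0) ≤ 8 * q ^ 2 * H := by
    have : 0 ≤ 8 * q ^ 2 * D i0 := by have := hD0 i0; positivity
    linarith
  -- D' = H / (6 q^2)
  set D' := H / (6 * q ^ 2) with hD'
  have hD'e : 6 * q ^ 2 * D' = H := by rw [hD']; field_simp
  have hD'big : 16 * (q + Q) ≤ D' := by
    rw [hD', le_div_iff₀ (by positivity)]
    nlinarith
  have hD'H : 24 * D' ≤ H := by nlinarith
  set Pa : ℕ → Prop := fun i => D i ≤ D' ∨ 8 * q ^ 2 * H ≤ dist (x i) (x j) with hPa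
  have hDz : ∀ i, x i ∈ Z → D i ≤ D' := by
    intro i hi
    have : D i = 0 := Metric.infDist_zero_of_mem hi
    rw [this]; linarith
  have hP0 : Pa 0 := Or.inl (hDz 0 h0)
  have hPN : Pa N := Or.inl (hDz N hN)
  have hPj : ¬ Pa j := by
    simp only [hPa, not_or, not_le, dist_self]
    exact ⟨by linarith, by positivity⟩
  set a := Nat.findGreatest Pa j with ha
  have haP : Pa a := Nat.findGreatest_spec (P := Pa) (Nat.zero_le j) hP0
  have haj : a ≤ j := Nat.findGreatest_le _
  have haj' : a < j := lt_of_le_of_ne haj (fun h => hPj (h ▸ haP))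
  have ham : ∀ i, a < i → i ≤ j → ¬ Pa i := fun i h1 h2 =>
    Nat.findGreatest_is_greatest (P := Pa) h1 h2
  have hex : ∃ i, j ≤ i ∧ Pa i := ⟨N, hjN, hPN⟩
  set e := Nat.find hex with he
  obtain ⟨hje, heP⟩ : j ≤ e ∧ Pa e := Nat.find_spec hex
  have heN : e ≤ N := Nat.find_min' hex ⟨hjN, hPN⟩
  have hje' : j < e := lt_of_le_of_ne hje (fun h => hPj (h ▸ heP))
  have hem : ∀ i, j ≤ i → i < e → ¬ Pa i := fun i h1 h2 h3 =>
    Nat.find_min hex h2 ⟨h1, h3⟩
  have hmid : ∀ i, a < i → i < e → D' < D i ∧ dist (x i) (x j) < 8 * q ^ 2 * H := by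
    intro i h1 h2
    have : ¬ Pa i := by
      rcases le_total i j with h | h
      · exact ham i h1 h
      · exact hem i h h2
    simpa only [hPa, not_or, not_le] using this
  have hstep : ∀ i, i < N → dist (x i) (x (i + 1)) ≤ q + Q := by
    intro i hi
    have := hup i (i + 1) (by omega) (by omega)
    push_cast at this
    linarith
  have hall : ∀ i, a ≤ i → i ≤ e → D' - (q + Q) ≤ D i ∧
      dist (x i) (x j) ≤ 8 * q ^ 2 * H + (q + Q) := by
    intro i h1 h2
    rcases Nat.eq_or_lt_of_le h1 with h | h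
    · subst h
      obtain ⟨h3, h4⟩ := hmid (a + 1) (by omega) (by omega)
      have h5 := hstep a (by omega)
      have h6 := hDlip (a + 1) a
      rw [dist_comm] at h6
      have h7 := dist_triangle (x a) (x (a + 1)) (x j)
      constructor <;> linarith
    · rcases Nat.eq_or_lt_of_le h2 with h' | h'
      · subst h'
        obtain ⟨h3, h4⟩ := hmid (e - 1) (by omega) (by omega)
        have h5 := hstep (e - 1) (by omega)
        have h8 : e - 1 + 1 = e := by omega
        rw [h8] at h5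
        have h6 := hDlip (e - 1) e
        have h7 := dist_triangle (x e) (x (e - 1)) (x j)
        rw [dist_comm (x e) (x (e - 1))] at h7
        constructor <;> linarith
      · obtain ⟨h3, h4⟩ := hmid i h h'
        constructor <;> linarith
  have hda := (hall a le_rfl (by omega)).2
  have hde := (hall e (by omega) le_rfl).2
  have hqQH : q + Q ≤ H := by linarith
  have hDa : D a ≤ 3 * H := by
    have h1 := hmax a (by omega)
    have h2 : 8 * q ^ 2 * D a ≤ 8 * q ^ 2 * (3 * H) := by nlinarith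
    exact le_of_mul_le_mul_left h2 (by positivity)
  have hDe : D e ≤ 3 * H := by
    have h1 := hmax e heN
    have h2 : 8 * q ^ 2 * D e ≤ 8 * q ^ 2 * (3 * H) := by nlinarith
    exact le_of_mul_le_mul_left h2 (by positivity)
  have hdae : dist (x a) (x e) ≤ 2 * (8 * q ^ 2 * H + (q + Q)) := by
    have := dist_triangle (x a) (x j) (x e)
    rw [dist_comm (x j)] at this
    linarith
  have hea : ((e : ℝ) - a) ≤ q * (2 * (8 * q ^ 2 * H + (q + Q)) + Q) + 1 := by
    have h1 := hlow a e (by omega) heN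
    have h2 : ((e : ℝ) - a - 1) / q ≤ 2 * (8 * q ^ 2 * H + (q + Q)) + Q := by linarith
    rw [div_le_iff₀ (by linarith)] at h2
    linarith
  -- near projections
  obtain ⟨y, ⟨u, hu0, rfl⟩, hu⟩ := (Metric.infDist_lt_iff hZne).1
    (show Metric.infDist (x a) Z < D a + 1 by simp only [hD]; linarith)
  obtain ⟨y, ⟨v, hv0, rfl⟩, hv⟩ := (Metric.infDist_lt_iff hZne).1
    (show Metric.infDist (x e) Z < D e + 1 by simp only [hD]; linarith)
  have huv0 : dist (b u) (b v) = |u - v| := hb u hu0 v hv0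
  have huvlow : dist (x a) (x e) - D a - D e - 2 ≤ |u - v| := by
    have := dist_triangle4 (x a) (b u) (b v) (x e)
    rw [dist_comm (b v)] at this
    linarith
  have huvup : |u - v| ≤ dist (x a) (x e) + D a + D e + 2 := by
    have := dist_triangle4 (b u) (x a) (x e) (b v)
    rw [dist_comm (b u) (x a)] at this
    linarith
  have hae_low := hlow a e (by omega) heN
  have hcast1 : (a : ℝ) + 1 ≤ j := by exact_mod_cast haj'
  have hcast2 : (j : ℝ) + 1 ≤ e := by exact_mod_cast hje'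
  have huv : 4 * D' ≤ |u - v| := by
    -- two cases
    have hq0 : 0 < q := by linarith
    by_cases hfar : 8 * q ^ 2 * H ≤ dist (x a) (x j) ∨ 8 * q ^ 2 * H ≤ dist (x e) (x j)
    · -- a far endpoint
      have hlen : 8 * q ^ 2 * H - Q ≤ q * ((e : ℝ) - a) := by
        rcases hfar with hf | hf
        · have h1 := hup a j haj hjN
          have h2 : q * ((j : ℝ) - a) ≤ q * ((e : ℝ) - a) :=
            mul_le_mul_of_nonneg_left (by linarith) hq0.le
          linarith
        · have h1 := hup j e hje heN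
          rw [dist_comm] at h1
          have h2 : q * ((e : ℝ) - j) ≤ q * ((e : ℝ) - a) :=
            mul_le_mul_of_nonneg_left (by linarith) hq0.le
          linarith
      have h1 := arith_far hq hQ hlen
      linarith
    · push Not at hfar
      have hDa' : D a ≤ D' := by
        rcases haP with h | h
        · exact h
        · exact absurd h (not_le.2 hfar.1)
      have hDe' : D e ≤ D' := by
        rcases heP with h | h
        · exact h
        · exact absurd h (not_le.2 hfar.2)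
      have h1 := hup a j haj hjN
      have h2 := hup j e hje heN
      have h3 := hDlip j a
      rw [dist_comm] at h3
      have h4 := hDlip j e
      have hlen : 2 * (H - D' - Q) ≤ q * ((e : ℝ) - a) := by linarith
      have h5 := arith_near hq hQ hHbig hD'e hD'H hlen
      linarith
  -- the detour
  set R := H / (24 * q ^ 2) with hRdef
  have hRD : 4 * R = D' := by rw [hRdef, hD']; field_simp; norm_num
  have hR1 : 1 ≤ R := by linarith
  have huv16 : 16 * R ≤ |u - v| := by linarith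
  have hpoly : Conn (fun y => R ≤ dist y (b ((u + v) / 2))) (((e : ℝ) - a) * (q + Q))
      (x a) (x e) := by
    have hPx : ∀ i, a ≤ i → i ≤ e → ∀ z, dist (x i) z ≤ q + Q → R ≤ dist z (b ((u + v) / 2)) := by
      intro i h1 h2 z hz
      have h3 := (hall i h1 h2).1
      have h4 : Metric.infDist (x i) Z ≤ Metric.infDist z Z + dist (x i) z :=
        Metric.infDist_le_infDist_add_dist
      have h5 : Metric.infDist z Z ≤ dist z (b ((u + v) / 2)) :=
        Metric.infDist_le_dist_of_mem ⟨_, by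
          simp only [mem_Ici] at hu0 hv0 ⊢
          linarith, rfl⟩
      simp only [hD] at h3
      linarith
    refine Conn.chain_range (by linarith) (by omega) (hPx a le_rfl (by omega) (x a)
      (by rw [dist_self]; linarith)) (fun i h1 h2 => ?_)
    exact Conn.seg_near hX (hstep i (by omega)) (fun z hz => hPx i h1 (by omega) z hz)
  have hea0 : (0:ℝ) ≤ (e : ℝ) - a := by linarith
  have hdet := detour hX hb hu0 hv0 hR1 (by positivity) huv16 (by
    simp only [hD] at hu; exact hu.le) (by simp only [hD] at hv; exact hv.le) hpoly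
  simp only [mem_Ici] at hu0 hv0
  have hub : u ≤ dist (b 0) (x i0) + (24 * q ^ 2 + 4) * H := by
    have h1 := hb 0 le_rfl u hu0
    rw [zero_sub, abs_neg, abs_of_nonneg hu0] at h1
    have h2 := dist_triangle4 (b 0) (x i0) (x j) (x a)
    have h3 := dist_triangle (b 0) (x a) (b u)
    rw [dist_comm (x i0), dist_comm (x j) (x a)] at h2
    nlinarith
  have hvb : v ≤ dist (b 0) (x i0) + (24 * q ^ 2 + 4) * H := by
    have h1 := hb 0 le_rfl v hv0
    rw [zero_sub, abs_neg, abs_of_nonneg hv0] at h1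
    have h2 := dist_triangle4 (b 0) (x i0) (x j) (x e)
    have h3 := dist_triangle (b 0) (x e) (b v)
    rw [dist_comm (x i0), dist_comm (x j) (x e)] at h2
    nlinarith
  refine ⟨(u + v) / 2, R, by linarith, rfl, ?_, by linarith, ?_⟩
  · rcases le_total u v with h | h
    · rw [abs_of_nonpos (by linarith)] at huv16
      linarith
    · rw [abs_of_nonneg (by linarith)] at huv16
      linarith
  · refine hdet.mono ?_ (fun _ h => h)
    have hRH : 24 * q ^ 2 * R = H := by rw [hRdef]; field_simp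
    have e1 : 24 * q ^ 2 * (32 * q ^ 2 + 13 + (32 * q ^ 3 + 1) * (q + Q)) * R =
        (32 * q ^ 2 + 13 + (32 * q ^ 3 + 1) * (q + Q)) * H := by
      rw [← hRH]; ring
    rw [e1]
    exact arith_total hq hQ hHbig (by linarith) (by simp only [hD] at hu hDa; linarith)
      (by simp only [hD] at hv hDe; linarith) hea

end Pool.Agent.Q195.KM
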