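import Pool.Agent.Q195.KM.DirA

namespace Pool.Agent.Q195.KM

open Set Filter Topology

variable {X : Type*} [MetricSpace X]

theorem kappa_add {κ : ℝ → ℝ} (hκ1 : ∀ t, 0 ≤ t → 1 ≤ κ t) (hconc : ConcaveOn ℝ (Ici 0) κ)
    {s t : ℝ} (hs : 0 ≤ s) (ht : 0 ≤ t) : κ (s + t) ≤ κ s + κ t := by
  rcases eq_or_lt_of_le (add_nonneg hs ht) with h | h
  · have h1 : s = 0 := by linarith
    have h2 : t = 0 := by linarith
    subst h1 h2
    have := hκ1 0 le_rfl
    simp only [add_zero]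
    linarith
  · have hne : s + t ≠ 0 := h.ne'
    have h1 := hconc.2 (show (s + t) ∈ Ici (0:ℝ) from h.le) (show (0:ℝ) ∈ Ici (0:ℝ) by simp)
      (show 0 ≤ s / (s + t) by positivity) (show 0 ≤ t / (s + t) by positivity)
      (by field_simp)
    have h2 := hconc.2 (show (s + t) ∈ Ici (0:ℝ) from h.le) (show (0:ℝ) ∈ Ici (0:ℝ) by simp)
      (show 0 ≤ t / (s + t) by positivity) (show 0 ≤ s / (s + t) by positivity)
      (by field_simp; ring)
    simp only [smul_eq_mul, mul_zero, add_zero] at h1 h2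
    rw [div_mul_cancel₀ _ hne] at h1 h2
    have h3 : s / (s + t) * κ (s + t) + t / (s + t) * κ (s + t) = κ (s + t) := by
      field_simp
    have h4 : t / (s + t) * κ 0 + s / (s + t) * κ 0 = κ 0 := by
      field_simp; ring
    have := hκ1 0 le_rfl
    linarith

theorem kappa_mul {κ : ℝ → ℝ} (hκ1 : ∀ t, 0 ≤ t → 1 ≤ κ t) (hconc : ConcaveOn ℝ (Ici 0) κ)
    {l t : ℝ} (hl : 1 ≤ l) (ht : 0 ≤ t) : κ (l * t) ≤ l * κ t := by
  have hl0 : 0 < l := by linarith
  have h1 := hconc.2 (show (l * t) ∈ Ici (0:ℝ) from by simp only [mem_Ici]; positivity)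
    (show (0:ℝ) ∈ Ici (0:ℝ) by simp)
    (show 0 ≤ 1 / l by positivity) (show 0 ≤ 1 - 1 / l by
      rw [sub_nonneg, div_le_one hl0]; exact hl)
    (by ring)
  simp only [smul_eq_mul, mul_zero, add_zero] at h1
  have e : 1 / l * (l * t) = t := by field_simp
  rw [e] at h1
  have h2 : 0 ≤ (1 - 1 / l) * κ 0 := by
    have := hκ1 0 le_rfl
    have h3 : 0 ≤ 1 - 1 / l := by rw [sub_nonneg, div_le_one hl0]; exact hl
    exact mul_nonneg h3 (by linarith)
  have h3 : 1 / l * κ (l * t) ≤ κ t := by linarith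
  rw [div_mul_eq_mul_div, one_mul, div_le_iff₀ hl0] at h3
  linarith

/-- Superlinear divergence bounds the excursions of discrete quasi-geodesics. -/
theorem discrete_bound (hX : Geod X) {κ : ℝ → ℝ} {b : ℝ → X}
    (hb : ∀ s, 0 ≤ s → ∀ t, 0 ≤ t → dist (b s) (b t) = |s - t|)
    (hmono : MonotoneOn κ (Ici 0)) (hκ1 : ∀ t, 0 ≤ t → 1 ≤ κ t)
    (hconc : ConcaveOn ℝ (Ici 0) κ)
    (hsub : Tendsto (fun t => κ t / t) atTop (𝓝 0))
    (hSL : ∀ C : ℝ, ∃ r0 : ℝ, 0 < r0 ∧ ∀ t R, 0 ≤ t → r0 * κ t ≤ R → R < t →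
      ¬ Conn (fun y => R ≤ dist y (b t)) (C * R) (b (t - R)) (b (t + R)))
    {q Q : ℝ} (hq : 2 ≤ q) (hQ : 1 ≤ Q) :
    ∃ C' : ℝ, 0 ≤ C' ∧ ∀ (N : ℕ) (x : ℕ → X),
      (∀ i j, i ≤ j → j ≤ N → dist (x i) (x j) ≤ q * ((j : ℝ) - i) + Q) →
      (∀ i j, i ≤ j → j ≤ N → ((j : ℝ) - i - 1) / q - Q ≤ dist (x i) (x j)) →
      x 0 ∈ b '' Ici 0 → x N ∈ b '' Ici 0 → ∀ i ≤ N,
        Metric.infDist (x i) (b '' Ici 0) ≤ C' * κ (dist (b 0) (x i)) := by
  obtain ⟨r0, hr0, hr⟩ := hSL (24 * q ^ 2 * (32 * q ^ 2 + 13 + (32 * q ^ 3 + 1) * (q + Q)))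
  set A : ℝ := 24 * q ^ 2 * r0 with hA
  have hA0 : 0 < A := by positivity
  set C3 : ℝ := 24 * q ^ 2 + 4 with hC3
  have hC30 : 1 ≤ C3 := by
    have : 0 ≤ 24 * q ^ 2 := by positivity
    linarith
  have hT : ∃ T : ℝ, 0 < T ∧ ∀ t, T ≤ t → A * κ t ≤ t / (2 * C3) := by
    have h1 : ∀ᶠ t in atTop, κ t / t < 1 / (2 * C3 * A) :=
      hsub.eventually (gt_mem_nhds (by positivity))
    obtain ⟨T, hT⟩ := eventually_atTop.1 h1
    refine ⟨max T 1, by positivity, fun t ht => ?_⟩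
    have h2 := hT t ((le_max_left _ _).trans ht)
    have ht0 : 0 < t := lt_of_lt_of_le one_pos ((le_max_right _ _).trans ht)
    rw [div_lt_div_iff₀ ht0 (by positivity)] at h2
    rw [le_div_iff₀ (by positivity)]
    nlinarith
  obtain ⟨T, hT0, hT⟩ := hT
  refine ⟨100 * q ^ 2 * (q + Q) + T + 2 * A, by positivity, ?_⟩
  intro N x hup hlow h0 hN i hi
  obtain ⟨H, hH, hex⟩ := excursion hX hb hq hQ hup hlow h0 hN hi
  have hk := hκ1 (dist (b 0) (x i)) dist_nonneg
  have hbig : 0 ≤ 100 * q ^ 2 * (q + Q) := by positivity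
  have hfin : H ≤ 100 * q ^ 2 * (q + Q) + T + 2 * A * κ (dist (b 0) (x i)) →
      Metric.infDist (x i) (b '' Ici 0) ≤
        (100 * q ^ 2 * (q + Q) + T + 2 * A) * κ (dist (b 0) (x i)) := by
    intro h
    have h1 : (100 * q ^ 2 * (q + Q) + T) * 1 ≤
        (100 * q ^ 2 * (q + Q) + T) * κ (dist (b 0) (x i)) :=
      mul_le_mul_of_nonneg_left hk (by positivity)
    linarith
  have hAk : 0 ≤ 2 * A * κ (dist (b 0) (x i)) := by positivity
  apply hfin
  by_cases hbigH : 100 * q ^ 2 * (q + Q) ≤ H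
  · obtain ⟨t0, R, ht0, hR, hRt, ht0u, hconn⟩ := hex hbigH
    have hH0 : 0 ≤ H := hbig.trans hbigH
    have h1 : R < r0 * κ t0 := by
      by_contra h
      exact hr t0 R ht0 (not_lt.1 h) hRt hconn
    have h2 : 24 * q ^ 2 * R = H := by rw [hR]; field_simp
    have h3 : H ≤ A * κ t0 := by
      rw [← h2, hA]
      have := mul_le_mul_of_nonneg_left h1.le (show 0 ≤ 24 * q ^ 2 by positivity)
      linarith
    have h4 : κ t0 ≤ κ (dist (b 0) (x i)) + κ (C3 * H) := by
      refine (hmono ht0 (show dist (b 0) (x i) + C3 * H ∈ Ici (0:ℝ) from by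
        simp only [mem_Ici]; positivity) ht0u).trans ?_
      exact kappa_add hκ1 hconc dist_nonneg (by positivity)
    by_cases hTH : T ≤ C3 * H
    · have h5 := hT _ hTH
      have h6 : C3 * H / (2 * C3) = H / 2 := by field_simp
      rw [h6] at h5
      have h7 := mul_le_mul_of_nonneg_left h4 hA0.le
      linarith
    · push Not at hTH
      have : 1 * H ≤ C3 * H := mul_le_mul_of_nonneg_right hC30 hH0
      linarith
  · push Not at hbigH
    linarith

/-- Direction from superlinear divergence to Morse, for arbitrary quasi-geodesics. -/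
theorem dirA (hX : Geod X) {κ : ℝ → ℝ} {b : ℝ → X}
    (hb : ∀ s, 0 ≤ s → ∀ t, 0 ≤ t → dist (b s) (b t) = |s - t|)
    (hmono : MonotoneOn κ (Ici 0)) (hκ1 : ∀ t, 0 ≤ t → 1 ≤ κ t)
    (hconc : ConcaveOn ℝ (Ici 0) κ)
    (hsub : Tendsto (fun t => κ t / t) atTop (𝓝 0))
    (hSL : ∀ C : ℝ, ∃ r0 : ℝ, 0 < r0 ∧ ∀ t R, 0 ≤ t → r0 * κ t ≤ R → R < t →
      ¬ Conn (fun y => R ≤ dist y (b t)) (C * R) (b (t - R)) (b (t + R)))
    (q0 Q0 : ℝ) (hq0 : 0 < q0) :
    ∃ m : ℝ, 0 ≤ m ∧ ∀ (β : ℝ → X) (s t : ℝ), s ≤ t → IsQG q0 Q0 s t β →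
      β s ∈ b '' Ici 0 → β t ∈ b '' Ici 0 → ∀ x ∈ Icc s t,
      Metric.infDist (β x) (b '' Ici 0) ≤ m * κ (dist (b 0) (β x)) := by
  set q := max q0 2 with hq
  set Q := max Q0 1 with hQ
  have hq2 : 2 ≤ q := le_max_right _ _
  have hQ1 : 1 ≤ Q := le_max_right _ _
  obtain ⟨C', hC'0, hC'⟩ := discrete_bound hX hb hmono hκ1 hconc hsub hSL hq2 hQ1
  have hk1 : 1 ≤ κ (q + Q) := hκ1 _ (by linarith)
  refine ⟨C' * (1 + κ (q + Q)) + (q + Q), by positivity, ?_⟩
  intro β s t hst hqg hs ht x hx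
  have hqg' : IsQG q Q s t β := by
    intro y hy z hz
    obtain ⟨h1, h2⟩ := hqg y hy z hz
    have h3 : |y - z| / q ≤ |y - z| / q0 :=
      div_le_div_of_nonneg_left (abs_nonneg _) hq0 (le_max_left _ _)
    have h4 : q0 * |y - z| ≤ q * |y - z| :=
      mul_le_mul_of_nonneg_right (le_max_left _ _) (abs_nonneg _)
    have h5 : Q0 ≤ Q := le_max_left _ _
    constructor <;> linarith
  set N := ⌈t - s⌉₊ with hN
  have hNle : t - s ≤ N := Nat.le_ceil _
  have hNlt : (N : ℝ) < t - s + 1 := Nat.ceil_lt_add_one (by linarith)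
  set p : ℕ → ℝ := fun i => min (s + i) t with hp
  have hpm : ∀ i, p i ∈ Icc s t := fun i => by
    refine ⟨le_min ?_ hst, min_le_right _ _⟩
    have : (0:ℝ) ≤ i := Nat.cast_nonneg i
    linarith
  have hpd : ∀ i j, i ≤ j → j ≤ N → (j : ℝ) - i - 1 ≤ |p i - p j| ∧ |p i - p j| ≤ (j : ℝ) - i := by
    intro i j hij hj
    have h1 : (i : ℝ) ≤ j := by exact_mod_cast hij
    have h2 : (j : ℝ) ≤ N := by exact_mod_cast hj
    have h3 : p i ≤ p j := min_le_min (by linarith) le_rfl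
    rw [abs_of_nonpos (by linarith)]
    have h4 : p i ≤ s + i := min_le_left _ _
    have h5 : p j ≤ s + j := min_le_left _ _
    have h6 : s + j - 1 ≤ p j := le_min (by linarith) (by linarith)
    refine ⟨by linarith, ?_⟩
    rcases le_total (s + i) t with h | h
    · have : p i = s + i := min_eq_left h
      linarith
    · have h7 : p i = t := min_eq_right h
      have h8 : p j ≤ t := min_le_right _ _
      linarith
  have hbound := hC' N (fun i => β (p i))
    (by
      intro i j hij hj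
      have h1 := (hqg' _ (hpm i) _ (hpm j)).2
      have h2 := mul_le_mul_of_nonneg_left (hpd i j hij hj).2 (show 0 ≤ q by linarith)
      linarith)
    (by
      intro i j hij hj
      have h1 := (hqg' _ (hpm i) _ (hpm j)).1
      have h2 := div_le_div_of_nonneg_right (hpd i j hij hj).1 (show 0 ≤ q by linarith)
      linarith)
    (by
      have : p 0 = s := by simp [hp, hst]
      simp only [this]
      exact hs)
    (by
      have : p N = t := min_eq_right (by linarith)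
      simp only [this]
      exact ht)
  -- the sample near `x`
  set i := ⌊x - s⌋₊ with hi
  have hxs : 0 ≤ x - s := by linarith [hx.1]
  have hi1 := Nat.floor_le hxs
  have hi2 := Nat.lt_floor_add_one (x - s)
  have hiN : i ≤ N := by
    have : (i : ℝ) ≤ N := by linarith [hx.2]
    exact_mod_cast this
  have hpi : p i = s + i := min_eq_left (by linarith [hx.2])
  have h1 := hbound i hiN
  have h2 : dist (β x) (β (p i)) ≤ q + Q := by
    have h3 := (hqg' x hx _ (hpm i)).2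
    have h4 : |x - p i| ≤ 1 := by
      rw [hpi, abs_of_nonneg (by linarith)]
      linarith
    have h5 := mul_le_mul_of_nonneg_left h4 (show 0 ≤ q by linarith)
    linarith
  have h3 : Metric.infDist (β x) (b '' Ici 0) ≤
      Metric.infDist (β (p i)) (b '' Ici 0) + dist (β x) (β (p i)) :=
    Metric.infDist_le_infDist_add_dist
  have h4 : dist (b 0) (β (p i)) ≤ dist (b 0) (β x) + (q + Q) := by
    have := dist_triangle (b 0) (β x) (β (p i))
    linarith
  have h5 : κ (dist (b 0) (β (p i))) ≤ κ (dist (b 0) (β x)) + κ (q + Q) := by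
    refine (hmono dist_nonneg (show dist (b 0) (β x) + (q + Q) ∈ Ici (0:ℝ) from by
      simp only [mem_Ici]; positivity) h4).trans ?_
    exact kappa_add hκ1 hconc dist_nonneg (by linarith)
  have hkx := hκ1 (dist (b 0) (β x)) dist_nonneg
  have h6 : κ (q + Q) * 1 ≤ κ (q + Q) * κ (dist (b 0) (β x)) :=
    mul_le_mul_of_nonneg_left hkx (by linarith)
  have h7 : κ (dist (b 0) (β (p i))) ≤ (1 + κ (q + Q)) * κ (dist (b 0) (β x)) := by linarith
  have h8 := mul_le_mul_of_nonneg_left h7 hC'0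
  have h9 : (q + Q) * 1 ≤ (q + Q) * κ (dist (b 0) (β x)) :=
    mul_le_mul_of_nonneg_left hkx (by linarith)
  linarith

theorem Conn.toPath {P : X → Prop} {L : ℝ} {p p' : X} (h : Conn P L p p') :
    ∃ γ : Path p p', (∀ s, P (γ s)) ∧
      eVariationOn (γ : unitInterval → X) univ ≤ ENNReal.ofReal L := by
  obtain ⟨f, a, c, hac, hcont, ha, hc, hin, hv⟩ := h
  have hm : ∀ s : unitInterval, a + (s : ℝ) * (c - a) ∈ Icc a c := by
    intro s
    have h1 := s.2.1
    have h2 := s.2.2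
    constructor
    · have := mul_nonneg h1 (show 0 ≤ c - a by linarith)
      linarith
    · have := mul_le_mul_of_nonneg_right h2 (show 0 ≤ c - a by linarith)
      linarith
  refine ⟨⟨⟨fun s => f (a + (s : ℝ) * (c - a)), ?_⟩, by simp [ha], by simp [hc]⟩, ?_, ?_⟩
  · exact hcont.comp_continuous (by fun_prop) hm
  · intro s
    exact hin _ (hm s)
  · refine (eVariationOn.comp_le_of_monotoneOn f (fun s : unitInterval => a + (s : ℝ) * (c - a))
      ?_ (fun s _ => hm s)).trans hv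
    intro x _ y _ hxy
    have : (x : ℝ) ≤ y := hxy
    have := mul_le_mul_of_nonneg_right this (show 0 ≤ c - a by linarith)
    simp only
    linarith

theorem Conn.ofPath {P : X → Prop} {L : ℝ} {p p' : X} (γ : Path p p') (hP : ∀ s, P (γ s))
    (hL : eVariationOn (γ : unitInterval → X) univ ≤ ENNReal.ofReal L) : Conn P L p p' := by
  refine ⟨γ.extend, 0, 1, zero_le_one, γ.continuous_extend.continuousOn, γ.extend_zero,
    γ.extend_one, ?_, ?_⟩
  · intro x hx
    exact hP _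
  · refine (eVariationOn.comp_le_of_monotoneOn (γ : unitInterval → X)
      (Set.projIcc (0:ℝ) 1 zero_le_one) ?_ (fun s _ => mem_univ _)).trans hL
    exact (Set.monotone_projIcc _).monotoneOn _

end Pool.Agent.Q195.KM
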