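import Pool.Agent.Q195.KM.Reach

namespace Pool.Agent.Q195.KM

open Set Filter Topology

variable {X : Type*} [MetricSpace X]

/-- Interpolation of a chain by a one-Lipschitz map. -/
theorem interp (hX : Geod X) {z : ℕ → X} (hz : ∀ i, dist (z i) (z (i + 1)) ≤ 1) :
    ∃ β : ℝ → X, (∀ i : ℕ, β i = z i) ∧
      ∀ x y : ℝ, 0 ≤ x → 0 ≤ y → dist (β x) (β y) ≤ |x - y| := by
  choose g hg0 hg1 hg using fun i => hX (z i) (z (i + 1))
  have hzz : ∀ i j : ℕ, i ≤ j → dist (z i) (z j) ≤ (j : ℝ) - i := by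
    intro i j hij
    induction j, hij using Nat.le_induction with
    | base => simp
    | succ j hij ih =>
      have := dist_triangle (z i) (z j) (z (j + 1))
      have := hz j
      push_cast
      linarith
  set d : ℕ → ℝ := fun i => dist (z i) (z (i + 1)) with hd
  have hd0 : ∀ i, 0 ≤ d i := fun i => dist_nonneg
  set β : ℝ → X := fun x => g ⌊x⌋₊ ((x - ⌊x⌋₊) * d ⌊x⌋₊) with hβ
  have hmem : ∀ x : ℝ, 0 ≤ x → (x - ⌊x⌋₊) * d ⌊x⌋₊ ∈ Icc (0:ℝ) (d ⌊x⌋₊) := by
    intro x hx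
    have h1 := Nat.floor_le hx
    have h2 := Nat.lt_floor_add_one x
    constructor
    · exact mul_nonneg (by linarith) (hd0 _)
    · have := mul_le_mul_of_nonneg_right (show x - ⌊x⌋₊ ≤ 1 by linarith) (hd0 ⌊x⌋₊)
      linarith
  have hl : ∀ x : ℝ, 0 ≤ x → dist (z ⌊x⌋₊) (β x) ≤ x - ⌊x⌋₊ := by
    intro x hx
    have h1 := Nat.floor_le hx
    have h3 := hg ⌊x⌋₊ 0 ⟨le_rfl, hd0 _⟩ _ (hmem x hx)
    rw [hg0] at h3
    rw [hβ]
    simp only
    rw [h3, zero_sub, abs_neg, abs_of_nonneg (hmem x hx).1]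
    have := mul_le_mul_of_nonneg_left (hz ⌊x⌋₊) (show 0 ≤ x - ⌊x⌋₊ by linarith)
    linarith
  have hr : ∀ x : ℝ, 0 ≤ x → dist (β x) (z (⌊x⌋₊ + 1)) ≤ ⌊x⌋₊ + 1 - x := by
    intro x hx
    have h1 := Nat.lt_floor_add_one x
    have h3 := hg ⌊x⌋₊ _ (hmem x hx) _ ⟨hd0 _, le_rfl⟩
    rw [hg1] at h3
    rw [hβ]
    simp only
    rw [h3, abs_sub_comm, abs_of_nonneg (by linarith [(hmem x hx).2])]
    have := mul_le_mul_of_nonneg_left (hz ⌊x⌋₊) (show 0 ≤ ⌊x⌋₊ + 1 - x by linarith)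
    have e : dist (z ⌊x⌋₊) (z (⌊x⌋₊ + 1)) - (x - ⌊x⌋₊) * d ⌊x⌋₊ =
      (⌊x⌋₊ + 1 - x) * dist (z ⌊x⌋₊) (z (⌊x⌋₊ + 1)) := by
      simp only [hd]; ring
    linarith
  have main : ∀ x y : ℝ, 0 ≤ x → x ≤ y → dist (β x) (β y) ≤ y - x := by
    intro x y hx hxy
    have hy : 0 ≤ y := hx.trans hxy
    have hfl : ⌊x⌋₊ ≤ ⌊y⌋₊ := Nat.floor_mono hxy
    rcases Nat.eq_or_lt_of_le hfl with h | h
    · have h3 := hg ⌊x⌋₊ _ (hmem x hx) _ (by have := hmem y hy; rwa [← h] at this)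
      have e1 : β x = g ⌊x⌋₊ ((x - ⌊x⌋₊) * d ⌊x⌋₊) := rfl
      have e2 : β y = g ⌊x⌋₊ ((y - ⌊x⌋₊) * d ⌊x⌋₊) := by
        simp only [hβ]; rw [← h]
      rw [e1, e2, h3, ← sub_mul, abs_mul, abs_of_nonneg (hd0 _), abs_of_nonpos (by linarith)]
      have := mul_le_mul_of_nonneg_left (hz ⌊x⌋₊) (show 0 ≤ y - x by linarith)
      simp only [hd]
      linarith
    · have h3 := hzz (⌊x⌋₊ + 1) ⌊y⌋₊ h
      have h4 := dist_triangle4 (β x) (z (⌊x⌋₊ + 1)) (z ⌊y⌋₊) (β y)
      have h5 := hr x hx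
      have h6 := hl y hy
      push_cast at h3
      linarith
  refine ⟨β, ?_, ?_⟩
  · intro i
    simp [hβ, hg0]
  · intro x y hx hy
    rcases le_total x y with h | h
    · rw [abs_of_nonpos (by linarith)]
      linarith [main x y hx h]
    · rw [abs_of_nonneg (by linarith), dist_comm]
      exact main y x hy h

/-- `(q, Q)`-quasi-geodesics on `[s, t]`. -/
def IsQG (q Q s t : ℝ) (β : ℝ → X) : Prop :=
  ∀ x ∈ Icc s t, ∀ y ∈ Icc s t, |x - y| / q - Q ≤ dist (β x) (β y) ∧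
    dist (β x) (β y) ≤ q * |x - y| + Q

/-- The continuous quasi-geodesic through a minimal chain. -/
theorem qg_of_chain (hX : Geod X) {K : ℝ} (hK : 1 ≤ K) {k : ℕ} {z : ℕ → X}
    (hs : ∀ i < k, dist (z i) (z (i + 1)) ≤ 1)
    (hmin : ∀ i j, i ≤ j → j ≤ k → ((j : ℝ) - i) ≤ K * (dist (z i) (z j) + 1)) :
    ∃ β : ℝ → X, ContinuousOn β (Icc (0:ℝ) k) ∧ IsQG K 4 0 k β ∧ ∀ i ≤ k, β i = z i := by
  obtain ⟨β, h1, h2⟩ := interp hX (z := fun i => z (min i k)) (by
    intro i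
    by_cases h : i < k
    · rw [min_eq_left h.le, min_eq_left (by omega)]
      exact hs i h
    · rw [min_eq_right (by omega), min_eq_right (by omega)]
      simp)
  have hz : ∀ i ≤ k, β i = z i := by
    intro i hi
    rw [h1, min_eq_left hi]
  refine ⟨β, ?_, ?_, hz⟩
  · have hl : LipschitzOnWith 1 β (Icc (0:ℝ) k) := by
      apply LipschitzOnWith.of_dist_le_mul
      intro x hx y hy
      rw [Real.dist_eq]
      simpa using h2 x y hx.1 hy.1
    exact hl.continuousOn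
  · have hup : ∀ x ∈ Icc (0:ℝ) k, ∀ y ∈ Icc (0:ℝ) k, dist (β x) (β y) ≤ K * |x - y| + 4 := by
      intro x hx y hy
      have := h2 x y hx.1 hy.1
      have := mul_le_mul_of_nonneg_right hK (abs_nonneg (x - y))
      linarith
    have hlow : ∀ x ∈ Icc (0:ℝ) k, ∀ y ∈ Icc (0:ℝ) k, x ≤ y →
        (y - x) / K - 4 ≤ dist (β x) (β y) := by
      intro x hx y hy hxy
      have hK0 : 0 < K := by linarith
      have hfk : ⌊y⌋₊ ≤ k := by
        have := Nat.floor_mono hy.2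
        rwa [Nat.floor_natCast] at this
      have hfl : ⌊x⌋₊ ≤ ⌊y⌋₊ := Nat.floor_mono hxy
      have h3 := hmin _ _ hfl hfk
      have hx1 := Nat.floor_le hx.1
      have hx2 := Nat.lt_floor_add_one x
      have hy1 := Nat.floor_le hy.1
      have hy2 := Nat.lt_floor_add_one y
      have h4 := h2 x ⌊x⌋₊ hx.1 (Nat.cast_nonneg _)
      have h5 := h2 y ⌊y⌋₊ hy.1 (Nat.cast_nonneg _)
      rw [hz _ (hfl.trans hfk), abs_of_nonneg (by linarith)] at h4
      rw [hz _ hfk, abs_of_nonneg (by linarith)] at h5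
      have h6 := dist_triangle4 (z ⌊x⌋₊) (β x) (β y) (z ⌊y⌋₊)
      rw [dist_comm (z ⌊x⌋₊) (β x)] at h6
      have h7 : (y - x) ≤ K * (dist (z ⌊x⌋₊) (z ⌊y⌋₊) + 2) := by nlinarith
      have h8 : (y - x) / K ≤ dist (z ⌊x⌋₊) (z ⌊y⌋₊) + 2 := by
        rw [div_le_iff₀ hK0]; linarith
      linarith
    intro x hx y hy
    refine ⟨?_, hup x hx y hy⟩
    rcases le_total x y with h | h
    · rw [abs_of_nonpos (by linarith), neg_sub]
      exact hlow x hx y hy h
    · rw [abs_of_nonneg (by linarith), dist_comm]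
      exact hlow y hy x hx h

/-- The geometric core of the direction from Morse to superlinear divergence. -/
theorem dirB (hX : Geod X) {κ : ℝ → ℝ} {b : ℝ → X}
    (hb : ∀ s, 0 ≤ s → ∀ t, 0 ≤ t → dist (b s) (b t) = |s - t|)
    (hmono : ∀ s t, 0 ≤ s → s ≤ t → κ s ≤ κ t)
    (hκ1 : ∀ t, 0 ≤ t → 1 ≤ κ t)
    (hmul : ∀ l t, 1 ≤ l → 0 ≤ t → κ (l * t) ≤ l * κ t)
    {m : ℝ} (C : ℕ)
    (hM : ∀ (β : ℝ → X) (s t : ℝ), s ≤ t → ContinuousOn β (Icc s t) →
      IsQG (2 * C + 2) 4 s t β → β s ∈ b '' Ici 0 → β t ∈ b '' Ici 0 → ∀ x ∈ Icc s t,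
      Metric.infDist (β x) (b '' Ici 0) ≤ m * κ (dist (b 0) (β x)))
    {t R : ℝ} (hR : 4 ≤ R) (hRt : R < t)
    (hconn : Conn (fun y => R ≤ dist y (b t)) (C * R) (b (t - R)) (b (t + R))) :
    R ≤ 8 * m * (C + 1) * κ t := by
  classical
  set Z := b '' Ici (0:ℝ) with hZ
  have hZne : Z.Nonempty := ⟨b 0, 0, by simp, rfl⟩
  obtain ⟨γ, a, e, hae, hcont, ha, he, hin, hv⟩ := hconn
  set K : ℕ := 2 * C + 2 with hKdef
  set c : X → ℕ := fun y => if dist y (b t) < R then K else 1 with hc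
  have hcK : ∀ y, c y ≤ K := by
    intro y
    simp only [hc]
    split_ifs <;> omega
  have hc1 : ∀ y, 1 ≤ c y := by
    intro y
    simp only [hc]
    split_ifs <;> omega
  have hC0 : (0:ℝ) ≤ C := Nat.cast_nonneg C
  set n : ℕ := ⌈(C:ℝ) * R⌉₊ with hn
  have hnR : (n : ℝ) < C * R + 1 := Nat.ceil_lt_add_one (by positivity)
  have hv2 : eVariationOn γ (Icc a e) ≤ (n : ENNReal) := by
    refine hv.trans ?_
    rw [← ENNReal.ofReal_natCast]
    exact ENNReal.ofReal_le_ofReal (Nat.le_ceil _)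
  have hsamp := Reach.sample (c := c) n a hae hcont (fun x hx => by
    simp only [hc]
    rw [if_neg (not_lt.2 (hin x hx))]) hv2
  rw [ha, he] at hsamp
  obtain ⟨k, z, hz0, hzk, hs, hsum, hmin⟩ := exists_minimal_chain hsamp
  have hind := fun i j (hij : i ≤ j) (hj : j ≤ k) =>
    minimal_chain_index hX hcK hc1 hmin hij hj
  have hsumk : k ≤ n + 1 := by
    calc k = ∑ i ∈ Finset.range k, 1 := by simp
      _ ≤ ∑ i ∈ Finset.range k, c (z (i + 1)) := Finset.sum_le_sum (fun i _ => hc1 _)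
      _ ≤ _ := hsum
  have hdz : ∀ i j : ℕ, i ≤ j → j ≤ k → dist (z i) (z j) ≤ (j : ℝ) - i := by
    intro i j hij
    induction j, hij using Nat.le_induction with
    | base => intro _; simp
    | succ j hij ih =>
      intro hj
      have h1 := ih (by omega)
      have h2 := dist_triangle (z i) (z j) (z (j + 1))
      have h3 := hs j (by omega)
      push_cast
      linarith
  -- some point of the chain is far from the ray
  have hfar : ∃ i ≤ k, R / 8 ≤ Metric.infDist (z i) Z := by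
    by_contra hcon
    push Not at hcon
    have hw : ∀ i, ∃ w : ℝ, i ≤ k → 0 ≤ w ∧ dist (z i) (b w) < R / 8 := by
      intro i
      by_cases hi : i ≤ k
      · obtain ⟨y, ⟨w, hw0, rfl⟩, hy⟩ := (Metric.infDist_lt_iff hZne).1 (hcon i hi)
        exact ⟨w, fun _ => ⟨hw0, hy⟩⟩
      · exact ⟨0, fun h => absurd h hi⟩
    choose w hw using hw
    have hwk : t + 3 * R / 4 ≤ w k := by
      obtain ⟨h1, h2⟩ := hw k le_rfl
      rw [hzk, hb _ (by linarith) _ h1, abs_lt] at h2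
      linarith [h2.2]
    have hw0 : w 0 ≤ t - 3 * R / 4 := by
      obtain ⟨h1, h2⟩ := hw 0 (Nat.zero_le _)
      rw [hz0, hb _ (by linarith) _ h1, abs_lt] at h2
      linarith [h2.1]
    have hex : ∃ i, t + 3 * R / 4 ≤ w i := ⟨k, hwk⟩
    set i2 := Nat.find hex with hi2
    have hi2s : t + 3 * R / 4 ≤ w i2 := Nat.find_spec hex
    have hi2k : i2 ≤ k := Nat.find_min' hex hwk
    have hi2m : ∀ i < i2, w i < t + 3 * R / 4 := fun i hi => not_le.1 (Nat.find_min hex hi)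
    set i1 := Nat.findGreatest (fun i => w i ≤ t - 3 * R / 4) i2 with hi1
    have hi1s : w i1 ≤ t - 3 * R / 4 :=
      Nat.findGreatest_spec (P := fun i => w i ≤ t - 3 * R / 4) (Nat.zero_le i2) hw0
    have hi12 : i1 ≤ i2 := Nat.findGreatest_le _
    have hi1m : ∀ i, i1 < i → i ≤ i2 → t - 3 * R / 4 < w i := fun i h1 h2 =>
      not_le.1 (Nat.findGreatest_is_greatest (P := fun i => w i ≤ t - 3 * R / 4) h1 h2)
    have hin1 : ∀ i, i1 < i → i < i2 → c (z i) = K := by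
      intro i h1 h2
      have h3 := hi1m i h1 h2.le
      have h4 := hi2m i h2
      obtain ⟨h5, h6⟩ := hw i (by omega)
      have h7 : dist (b (w i)) (b t) < 3 * R / 4 := by
        rw [hb _ h5 _ (by linarith), abs_lt]
        constructor <;> linarith
      have h8 := dist_triangle (z i) (b (w i)) (b t)
      simp only [hc]
      rw [if_pos (by linarith)]
    have hd12 : 5 * R / 4 ≤ dist (z i1) (z i2) := by
      obtain ⟨h5, h6⟩ := hw i1 (by omega)
      obtain ⟨h7, h8⟩ := hw i2 (by omega)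
      have h9 := dist_triangle4 (b (w i1)) (z i1) (z i2) (b (w i2))
      rw [hb _ h5 _ h7, abs_of_nonpos (by linarith), dist_comm (b (w i1))] at h9
      linarith
    have hidx := hdz i1 i2 hi12 hi2k
    have hlow : K * (i2 - 1 - i1) ≤ ∑ i ∈ Finset.range k, c (z (i + 1)) := by
      calc K * (i2 - 1 - i1) = ∑ i ∈ Finset.Ico i1 (i2 - 1), K := by
            simp [mul_comm]
        _ = ∑ i ∈ Finset.Ico i1 (i2 - 1), c (z (i + 1)) := by
            apply Finset.sum_congr rfl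
            intro i hi
            rw [Finset.mem_Ico] at hi
            exact (hin1 (i + 1) (by omega) (by omega)).symm
        _ ≤ _ := by
            apply Finset.sum_le_sum_of_subset
            intro i hi
            rw [Finset.mem_Ico] at hi
            rw [Finset.mem_range]
            omega
    have hlt : i1 + 1 ≤ i2 := by
      rcases Nat.eq_or_lt_of_le hi12 with h | h
      · rw [h] at hd12
        simp at hd12
        linarith
      · exact h
    have hlow2 : K * (i2 - 1 - i1) ≤ n + 1 := hlow.trans hsum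
    have hlow3 : (K : ℝ) * ((i2 : ℝ) - 1 - i1) ≤ n + 1 := by
      have h1 : ((K * (i2 - 1 - i1) : ℕ) : ℝ) ≤ ((n + 1 : ℕ) : ℝ) := by exact_mod_cast hlow2
      rw [Nat.cast_mul, Nat.cast_sub (by omega), Nat.cast_sub (by omega)] at h1
      push_cast at h1
      exact h1
    have hK' : (K : ℝ) = 2 * C + 2 := by simp [hKdef]
    have h10 : R ≤ (i2 : ℝ) - 1 - i1 := by linarith
    have h11 : (K : ℝ) * R ≤ n + 1 :=
      (mul_le_mul_of_nonneg_left h10 (by positivity)).trans hlow3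
    rw [hK'] at h11
    nlinarith
  obtain ⟨i, hik, hi⟩ := hfar
  have hK1 : (1:ℝ) ≤ 2 * C + 2 := by linarith
  obtain ⟨β, hβc, hβq, hβz⟩ := qg_of_chain hX (K := 2 * C + 2) hK1 hs (fun i j hij hj => by
    have := hind i j hij hj
    simpa [hKdef] using this)
  have h1 := hM β 0 k (Nat.cast_nonneg k) hβc hβq
    (by
      have := hβz 0 (Nat.zero_le _)
      rw [Nat.cast_zero] at this
      rw [this, hz0]
      exact ⟨t - R, by simp; linarith, rfl⟩)
    (by
      rw [hβz k le_rfl, hzk]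
      exact ⟨t + R, by simp; linarith, rfl⟩)
    i ⟨Nat.cast_nonneg i, by exact_mod_cast hik⟩
  rw [hβz i hik] at h1
  have ht0 : 0 < t := by linarith
  have hki : (k : ℝ) ≤ n + 1 := by exact_mod_cast hsumk
  have hik' : (i : ℝ) ≤ k := by exact_mod_cast hik
  have hnorm : dist (b 0) (z i) ≤ (C + 1) * t := by
    have h2 := dist_triangle (b 0) (z 0) (z i)
    have h3 := hdz 0 i (Nat.zero_le _) hik
    rw [hz0, hb 0 le_rfl _ (by linarith), zero_sub, abs_neg, abs_of_nonneg (by linarith)] at h2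
    rw [hz0] at h3
    push_cast at h3
    nlinarith
  have h4 : κ (dist (b 0) (z i)) ≤ (C + 1) * κ t :=
    (hmono _ _ dist_nonneg hnorm).trans (hmul _ _ (by linarith) ht0.le)
  have h5 : 0 < m := by
    by_contra hm
    push Not at hm
    have h6 := hκ1 (dist (b 0) (z i)) dist_nonneg
    nlinarith
  have h6 : m * κ (dist (b 0) (z i)) ≤ m * ((C + 1) * κ t) :=
    mul_le_mul_of_nonneg_left h4 h5.le
  linarith

end Pool.Agent.Q195.KM
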