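import Pool.Agent.Q195.KM.Conn

namespace Pool.Agent.Q195.KM

open Set Filter Topology

variable {X : Type*} [MetricSpace X]

/-- A chain with steps of length at most one, with total cost of its points (without the first
one) equal to the first parameter. -/
inductive Reach (c : X → ℕ) : ℕ → X → X → Prop
  | refl (x : X) : Reach c 0 x x
  | step {N : ℕ} {x y z : X} (h : Reach c N x y) (h' : dist y z ≤ 1) : Reach c (N + c z) x z

theorem Reach.trans {c : X → ℕ} {N M : ℕ} {x y z : X} (h1 : Reach c N x y) (h2 : Reach c M y z) :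
    Reach c (N + M) x z := by
  induction h2 with
  | refl => simpa using h1
  | step h h' ih =>
    rename_i M' y' z'
    have := (ih h1).step h'
    rwa [add_assoc] at this

theorem Reach.single {c : X → ℕ} {x y : X} (h : dist x y ≤ 1) : Reach c (c y) x y := by
  have := (Reach.refl (c := c) x).step h
  rwa [zero_add] at this

theorem Reach.exists_seq {c : X → ℕ} {N : ℕ} {x y : X} (h : Reach c N x y) :
    ∃ (k : ℕ) (z : ℕ → X), z 0 = x ∧ z k = y ∧ (∀ i < k, dist (z i) (z (i + 1)) ≤ 1) ∧
      ∑ i ∈ Finset.range k, c (z (i + 1)) = N := by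
  induction h with
  | refl x' => exact ⟨0, fun _ => x', rfl, rfl, by simp, by simp⟩
  | step h h' ih =>
    rename_i M' y' z'
    obtain ⟨k, z, h0, hk, hs, hc⟩ := ih
    refine ⟨k + 1, fun i => if i ≤ k then z i else z', by simp [h0], by simp, ?_, ?_⟩
    · intro i hi
      by_cases hik : i < k
      · have h1 : i ≤ k := by omega
        have h2 : i + 1 ≤ k := by omega
        simp only [h1, h2, if_true]
        exact hs i hik
      · have h1 : i = k := by omega
        subst h1
        simp [hk, h']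
    · rw [Finset.sum_range_succ]
      congr 1
      · rw [← hc]
        apply Finset.sum_congr rfl
        intro i hi
        have h2 : i + 1 ≤ k := by simpa using hi
        simp [h2]
      · simp

theorem Reach.of_seq {c : X → ℕ} {k : ℕ} {z : ℕ → X}
    (hs : ∀ i < k, dist (z i) (z (i + 1)) ≤ 1) {i j : ℕ} (hij : i ≤ j) (hj : j ≤ k) :
    Reach c (∑ l ∈ Finset.Ico i j, c (z (l + 1))) (z i) (z j) := by
  induction j, hij using Nat.le_induction with
  | base => simpa using Reach.refl (z i)
  | succ j hij ih =>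
    rw [Finset.sum_Ico_succ_top hij]
    exact (ih (by omega)).step (hs j (by omega))

/-- A geodesic gives a chain of bounded cost. -/
theorem Reach.geod (hX : Geod X) {c : X → ℕ} {K : ℕ} (hc : ∀ x, c x ≤ K) (x y : X) :
    ∃ N ≤ K * ⌈dist x y⌉₊, Reach c N x y := by
  obtain ⟨γ, h0, h1, h2⟩ := hX x y
  set d := dist x y with hd
  have hd0 : 0 ≤ d := dist_nonneg
  have key : ∀ i : ℕ, i ≤ ⌈d⌉₊ → ∃ N ≤ K * i, Reach c N x (γ (min i d)) := by
    intro i
    induction i with
    | zero => intro _; exact ⟨0, by simp, by simpa [hd0, h0] using Reach.refl x⟩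
    | succ i ih =>
      intro hi
      obtain ⟨N, hN, hR⟩ := ih (by omega)
      refine ⟨N + c (γ (min ((i + 1 : ℕ) : ℝ) d)), ?_, hR.step ?_⟩
      · have := hc (γ (min ((i + 1 : ℕ) : ℝ) d))
        have e : K * (i + 1) = K * i + K := by ring
        omega
      · rw [h2 _ ⟨by positivity, min_le_right _ _⟩ _ ⟨by positivity, min_le_right _ _⟩]
        push_cast
        rw [abs_sub_comm, abs_of_nonneg (sub_nonneg.2 (min_le_min (by linarith) le_rfl))]
        rcases le_total ((i:ℝ) + 1) d with h | h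
        · rw [min_eq_left h, min_eq_left (by linarith)]; linarith
        · rw [min_eq_right h]
          rcases le_total (i:ℝ) d with h' | h'
          · rw [min_eq_left h']; linarith
          · rw [min_eq_right h']; linarith
  obtain ⟨N, hN, hR⟩ := key ⌈d⌉₊ le_rfl
  refine ⟨N, hN, ?_⟩
  rw [min_eq_right (Nat.le_ceil d), h1] at hR
  exact hR

/-- Sampling of a continuous path of bounded variation by a chain of points of the path. -/
theorem Reach.sample {c : X → ℕ} {γ : ℝ → X} {e : ℝ} (n : ℕ) : ∀ a : ℝ, a ≤ e →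
    ContinuousOn γ (Icc a e) → (∀ x ∈ Icc a e, c (γ x) ≤ 1) →
    eVariationOn γ (Icc a e) ≤ (n : ENNReal) → ∃ N ≤ n + 1, Reach c N (γ a) (γ e) := by
  induction n with
  | zero =>
    intro a hae hcont hc hv
    have h1 : edist (γ a) (γ e) ≤ 0 :=
      (eVariationOn.edist_le γ (s := Icc a e) (x := a) (y := e) ⟨le_rfl, hae⟩
        ⟨hae, le_rfl⟩).trans (by simpa using hv)
    have h2 : γ a = γ e := by simpa using h1
    exact ⟨0, by omega, by rw [h2]; exact Reach.refl _⟩
  | succ n ih =>
    intro a hae hcont hc hv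
    by_cases hd : dist (γ a) (γ e) ≤ 1
    · exact ⟨c (γ e), by have := hc e ⟨hae, le_rfl⟩; omega, Reach.single hd⟩
    push Not at hd
    have hcont' : ContinuousOn (fun x => dist (γ a) (γ x)) (Icc a e) :=
      (continuous_const.dist continuous_id).comp_continuousOn hcont
    have hI := intermediate_value_Icc hae hcont'
    obtain ⟨x, hx, hx1⟩ := hI (show (1:ℝ) ∈ Icc (dist (γ a) (γ a)) (dist (γ a) (γ e)) by
      rw [dist_self]; exact ⟨zero_le_one, hd.le⟩)
    simp only at hx1
    have h3 := eVariationOn.Icc_add_Icc γ (s := univ) hx.1 hx.2 (mem_univ _)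
    simp only [univ_inter] at h3
    have h4 : (1 : ENNReal) ≤ eVariationOn γ (Icc a x) := by
      have := eVariationOn.edist_le γ (s := Icc a x) (x := a) (y := x) ⟨le_rfl, hx.1⟩ ⟨hx.1, le_rfl⟩
      rw [edist_dist, hx1] at this
      simpa using this
    have h5 : eVariationOn γ (Icc x e) ≤ n := by
      have h6 : 1 + eVariationOn γ (Icc x e) ≤ 1 + (n : ENNReal) := by
        calc 1 + eVariationOn γ (Icc x e) ≤ eVariationOn γ (Icc a x) + eVariationOn γ (Icc x e) :=
              add_le_add_left h4 _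
          _ = _ := h3
          _ ≤ _ := by rw [add_comm]; exact_mod_cast hv
      exact (ENNReal.add_le_add_iff_left ENNReal.one_ne_top).1 h6
    have hsub : Icc x e ⊆ Icc a e := Icc_subset_Icc_left hx.1
    obtain ⟨N, hN, hR⟩ := ih x hx.2 (hcont.mono hsub) (fun y hy => hc y (hsub hy)) h5
    refine ⟨c (γ x) + N, ?_, (Reach.single hx1.le).trans hR⟩
    have := hc x hx
    omega

/-- A minimal chain. -/
theorem exists_minimal_chain {c : X → ℕ} {N0 : ℕ} {x y : X} (h : ∃ N ≤ N0, Reach c N x y) :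
    ∃ (k : ℕ) (z : ℕ → X), z 0 = x ∧ z k = y ∧ (∀ i < k, dist (z i) (z (i + 1)) ≤ 1) ∧
      ∑ i ∈ Finset.range k, c (z (i + 1)) ≤ N0 ∧
      ∀ i j, i ≤ j → j ≤ k → ∀ M, Reach c M (z i) (z j) →
        ∑ l ∈ Finset.Ico i j, c (z (l + 1)) ≤ M := by
  classical
  obtain ⟨N, hN, hR⟩ := h
  have hex : ∃ N, Reach c N x y := ⟨N, hR⟩
  have hmin : ∀ {m : ℕ}, Reach c m x y → Nat.find hex ≤ m := fun hm => Nat.find_min' hex hm
  obtain ⟨k, z, h0, hk, hs, hc⟩ := (Nat.find_spec hex).exists_seq
  refine ⟨k, z, h0, hk, hs, ?_, ?_⟩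
  · rw [hc]
    exact (hmin hR).trans hN
  · intro i j hij hj M hM
    have r1 := Reach.of_seq (c := c) hs (Nat.zero_le i) (hij.trans hj)
    have r2 := Reach.of_seq (c := c) hs hj le_rfl
    rw [h0] at r1
    rw [hk] at r2
    have h3 := hmin ((r1.trans hM).trans r2)
    rw [← hc, Finset.range_eq_Ico] at h3
    have h4 := Finset.sum_Ico_consecutive (fun l => c (z (l + 1))) (Nat.zero_le i) hij
    have h5 := Finset.sum_Ico_consecutive (fun l => c (z (l + 1))) (Nat.zero_le j) hj
    omega

/-- In a minimal chain for a bounded cost function which is at least one, the indices are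
controlled by the distances. -/
theorem minimal_chain_index (hX : Geod X) {c : X → ℕ} {K : ℕ} (hc : ∀ x, c x ≤ K)
    (hc1 : ∀ x, 1 ≤ c x) {k : ℕ} {z : ℕ → X}
    (hmin : ∀ i j, i ≤ j → j ≤ k → ∀ M, Reach c M (z i) (z j) →
        ∑ l ∈ Finset.Ico i j, c (z (l + 1)) ≤ M) {i j : ℕ} (hij : i ≤ j) (hj : j ≤ k) :
    ((j : ℝ) - i) ≤ K * (dist (z i) (z j) + 1) := by
  obtain ⟨N, hN, hR⟩ := Reach.geod hX hc (z i) (z j)
  have h1 := hmin i j hij hj N hR
  have h2 : j - i ≤ ∑ l ∈ Finset.Ico i j, c (z (l + 1)) := by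
    calc j - i = ∑ l ∈ Finset.Ico i j, 1 := by simp
      _ ≤ _ := Finset.sum_le_sum (fun l _ => hc1 _)
  have h3 : j - i ≤ K * ⌈dist (z i) (z j)⌉₊ := by omega
  have h4 : ((j - i : ℕ) : ℝ) ≤ K * (⌈dist (z i) (z j)⌉₊ : ℝ) := by exact_mod_cast h3
  rw [Nat.cast_sub hij] at h4
  refine h4.trans (mul_le_mul_of_nonneg_left ?_ (by positivity))
  exact (Nat.ceil_lt_add_one dist_nonneg).le

end Pool.Agent.Q195.KM
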